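import Pool.Agent.Helper67.HS.Bridge

set_option autoImplicit false

namespace Pool.Agent.Results.MP_6b7cbf_co.AllLarge

open N441b2449

/-- The burning number conjecture holds for all connected graphs with sufficiently many
vertices. -/
theorem result : ∃ n₀ : ℕ, ∀ {V : Type} [Fintype V] (G : SimpleGraph V), G.Connected →
    n₀ ≤ Fintype.card V → burningNumber G ≤ ⌈Real.sqrt (Fintype.card V)⌉₊ :=
  Pool.Agent.Helper67.HS.burning_conjecture_large

end Pool.Agent.Results.MP_6b7cbf_co.AllLarge
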