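import Pool.Agent.Helper64.FB.GraphMain
import Pool.Agent.Helper64.Burn.FewLeavesThm

set_option autoImplicit false

namespace Pool.Agent.Results.MP_6b7cbf_co.FewBranches

open N441b2449 Pool.Agent.Helper64.Burn Pool.Agent.Helper64.FB

theorem log_bound {n k : ℕ} (hn : 2 ≤ n) (hk : (k : ℝ) ≤ 2 * Real.sqrt n) :
    ((Nat.log 2 k + 1 : ℕ) : ℝ) ≤ 4 * Real.log n := by
  have hn' : (2 : ℝ) ≤ n := by exact_mod_cast hn
  have h2 : (0.6931471803 : ℝ) < Real.log 2 := Real.log_two_gt_d9
  have hlogn : Real.log 2 ≤ Real.log n := Real.log_le_log (by norm_num) hn'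
  have h1 : (Nat.log 2 k : ℝ) * Real.log 2 ≤ Real.log 2 + Real.log n / 2 := by
    rcases Nat.eq_zero_or_pos k with h0 | h0
    · subst h0
      simp
      linarith
    · have h3 : (2 : ℝ) ^ (Nat.log 2 k) ≤ (k : ℝ) := by
        exact_mod_cast Nat.pow_log_le_self 2 h0.ne'
      have h4 : Real.log ((2 : ℝ) ^ (Nat.log 2 k)) ≤ Real.log (2 * Real.sqrt n) :=
        Real.log_le_log (by positivity) (h3.trans hk)
      rw [Real.log_pow, Real.log_mul (by norm_num) (by positivity),
        Real.log_sqrt (by positivity)] at h4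
      exact h4
  push_cast
  nlinarith

/-- The burning number conjecture holds for every connected graph `G` which has a subtree `H`
with at most `l ≥ 1` leaves such that every vertex of `G` is at distance at most `p` from `H`,
or `l` pairwise disjoint paths such that every vertex is at distance at most `p` from one of
them, if `10^22 (l + p) ln n ≤ √n` or `10^8 l (l + p²) ≤ ⌈√n⌉`. -/
theorem result {V : Type*} [Fintype V] (G : SimpleGraph V) (hG : G.Connected) (l p : ℕ)
    (hl : 0 < l)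
    (hyp : (∃ H : G.Subgraph, H.coe.IsTree ∧
        {x : H.verts | (H.coe.neighborSet x).ncard = 1}.ncard ≤ l ∧
        ∀ w, ∃ x ∈ H.verts, G.dist w x ≤ p) ∨
      (∃ (u v : Fin l → V) (P : ∀ i, G.Walk (u i) (v i)), (∀ i, (P i).IsPath) ∧
        (∀ i j, i ≠ j → (P i).support.Disjoint (P j).support) ∧
        ∀ w, ∃ i, ∃ x ∈ (P i).support, G.dist w x ≤ p))
    (h : 10 ^ 22 * ((l : ℝ) + p) * Real.log (Fintype.card V) ≤ Real.sqrt (Fintype.card V) ∨
      10 ^ 8 * l * (l + p ^ 2) ≤ ⌈Real.sqrt (Fintype.card V)⌉₊) :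
    burningNumber G ≤ ⌈Real.sqrt (Fintype.card V)⌉₊ := by
  classical
  rcases h with h | h
  swap
  · exact few_leaves G hG l p hl hyp h
  obtain ⟨v₀⟩ := hG.nonempty
  obtain ⟨n, hn⟩ : ∃ n, n = Fintype.card V := ⟨_, rfl⟩
  obtain ⟨k, hk⟩ : ∃ k, k = ⌈Real.sqrt (Fintype.card V)⌉₊ := ⟨_, rfl⟩
  rw [← hk]
  have hle : Real.sqrt (Fintype.card V) ≤ (k : ℝ) := by rw [hk]; exact Nat.le_ceil _
  have hcard : Fintype.card V ≤ k ^ 2 := by
    have h4 : ((Fintype.card V : ℕ) : ℝ) ≤ ((k : ℕ) : ℝ) ^ 2 := by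
      rw [← Real.sqrt_le_left (by positivity)]
      exact hle
    exact_mod_cast h4
  have hn1 : 1 ≤ n := by
    rw [hn]
    exact Fintype.card_pos_iff.2 ⟨v₀⟩
  rcases Nat.lt_or_ge n 2 with hn2 | hn2
  · -- one vertex
    have hn1' : Fintype.card V = 1 := by omega
    have hk1 : 1 ≤ k := by
      rcases Nat.eq_zero_or_pos k with h0 | h0
      · rw [h0] at hcard
        omega
      · exact h0
    have hsub : Subsingleton V := Fintype.card_le_one_iff_subsingleton.1 (by omega)
    refine (burningNumber_le_of_centers hG (k := 1) (fun _ => v₀) ?_).trans hk1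
    intro v
    refine ⟨0, by omega, ?_⟩
    rw [Subsingleton.elim v v₀, SimpleGraph.dist_self]
  have hn2' : (2 : ℝ) ≤ (Fintype.card V : ℝ) := by
    rw [← hn]
    exact_mod_cast hn2
  have hsq1 : 1 ≤ Real.sqrt (Fintype.card V) := by
    rw [Real.one_le_sqrt]
    linarith
  have hk2 : (k : ℝ) ≤ 2 * Real.sqrt (Fintype.card V) := by
    have h5 : (k : ℝ) < Real.sqrt (Fintype.card V) + 1 := by
      rw [hk]
      exact Nat.ceil_lt_add_one (Real.sqrt_nonneg _)
    linarith
  have hlog := log_bound (n := Fintype.card V) (k := k) (by omega) hk2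
  have hl1 : (1 : ℝ) ≤ l := by exact_mod_cast hl
  have hp0 : (0 : ℝ) ≤ p := Nat.cast_nonneg p
  have hlogpos : 0 ≤ Real.log (Fintype.card V) := Real.log_nonneg (by linarith)
  have hC : 10 ^ 20 * (2 * l + p + 1) * (Nat.log 2 k + 1) ≤ k := by
    have h6 : ((10 ^ 20 * (2 * l + p + 1) * (Nat.log 2 k + 1) : ℕ) : ℝ) ≤ (k : ℝ) := by
      refine le_trans ?_ (h.trans hle)
      have h7 : ((10 ^ 20 * (2 * l + p + 1) * (Nat.log 2 k + 1) : ℕ) : ℝ) =
          10 ^ 20 * (2 * (l : ℝ) + p + 1) * ((Nat.log 2 k + 1 : ℕ) : ℝ) := by push_cast; ring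
      rw [h7]
      have h8 : 10 ^ 20 * (2 * (l : ℝ) + p + 1) * ((Nat.log 2 k + 1 : ℕ) : ℝ) ≤
          10 ^ 20 * (2 * (l : ℝ) + p + 1) * (4 * Real.log (Fintype.card V)) :=
        mul_le_mul_of_nonneg_left hlog (by positivity)
      refine h8.trans ?_
      have h9 : 2 * (l : ℝ) + p + 1 ≤ 3 * (l + p) := by linarith
      have h10 : (2 * (l : ℝ) + p + 1) * Real.log (Fintype.card V) ≤
          3 * (l + p) * Real.log (Fintype.card V) := mul_le_mul_of_nonneg_right h9 hlogpos
      nlinarith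
    exact_mod_cast h6
  have hmono : ∀ l', l' ≤ 2 * l → 10 ^ 20 * (l' + p + 1) * (Nat.log 2 k + 1) ≤ k := by
    intro l' hl'
    refine le_trans ?_ hC
    refine Nat.mul_le_mul_right _ (Nat.mul_le_mul_left _ ?_)
    omega
  rcases hyp with ⟨H, hH, hleaf, hd⟩ | ⟨u, v, P, hP, hdisj, hd⟩
  · obtain ⟨c, hc⟩ := graph_main hG (l := l) (p := p) (k := k) H hH hleaf hd hcard
      (hmono l (by omega))
    exact burningNumber_le_of_centers hG c hc
  · have hF : FewPaths G (fun i => (P i).length + 1) (fun i => (P i).getVert) := by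
      refine ⟨fun i => (pathSeq_of_walk (P i) (hP i)).1, ?_⟩
      intro i i' j j' _ _ he
      by_contra hne
      exact hdisj i i' hne ((P i).getVert_mem_support j) (by
        rw [he]; exact (P i').getVert_mem_support j')
    have hd' : ∀ w, ∃ x ∈ allVerts (fun i => (P i).length + 1) (fun i => (P i).getVert),
        G.dist w x ≤ p := by
      intro w
      obtain ⟨i, x, hx, hx'⟩ := hd w
      obtain ⟨j, hj, hj'⟩ := SimpleGraph.Walk.mem_support_iff_exists_getVert.1 hx
      exact ⟨x, ⟨i, j, Nat.lt_succ_of_le hj', hj⟩, hx'⟩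
    have hne : (allVerts (fun i => (P i).length + 1) (fun i => (P i).getVert)).Nonempty := by
      obtain ⟨x, hx, _⟩ := hd' v₀
      exact ⟨x, hx⟩
    obtain ⟨H, hH, hleaf, hsub⟩ := hull hG hF hne
    obtain ⟨c, hc⟩ := graph_main hG (l := 2 * l) (p := p) (k := k) H hH hleaf (by
      intro w
      obtain ⟨x, hx, hx'⟩ := hd' w
      exact ⟨x, hsub hx, hx'⟩) hcard (hmono (2 * l) le_rfl)
    exact burningNumber_le_of_centers hG c hc

end Pool.Agent.Results.MP_6b7cbf_co.FewBranches
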