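import Pool.Agent.Helper64.Burn.Paths

set_option autoImplicit false

namespace Pool.Agent.Results.MP_6b7cbf_co.NearPath

open N441b2449 Pool.Agent.Helper64.Burn

/-- The burning number conjecture holds for every connected graph `G` which has a path `P` such
that every vertex is at distance at most `p` from `P`, if `p` is at most `⌈√n⌉ / 360000`,
or if `40 p² ≤ ⌈√n⌉`, or if `P` misses fewer than `⌈√n⌉ / 2` vertices. -/
theorem result {V : Type*} [Fintype V] (G : SimpleGraph V) (hG : G.Connected)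
    {u v : V} (P : G.Walk u v) (hP : P.IsPath) (p : ℕ)
    (hp : ∀ w, ∃ x ∈ P.support, G.dist w x ≤ p)
    (h : 360000 * p ≤ ⌈Real.sqrt (Fintype.card V)⌉₊ ∨
      40 * p ^ 2 ≤ ⌈Real.sqrt (Fintype.card V)⌉₊ ∨
      2 * (Fintype.card V - P.support.length) < ⌈Real.sqrt (Fintype.card V)⌉₊) :
    burningNumber G ≤ ⌈Real.sqrt (Fintype.card V)⌉₊ := by
  obtain ⟨h1, h2⟩ := pathSeq_of_walk P hP
  have hlen : P.support.length = P.length + 1 := P.length_support
  have hcard : Fintype.card V ≤ ⌈Real.sqrt (Fintype.card V)⌉₊ ^ 2 := by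
    have h3 : Real.sqrt (Fintype.card V) ≤ (⌈Real.sqrt (Fintype.card V)⌉₊ : ℝ) := Nat.le_ceil _
    have h4 : ((Fintype.card V : ℕ) : ℝ) ≤ ((⌈Real.sqrt (Fintype.card V)⌉₊ : ℕ) : ℝ) ^ 2 := by
      rw [← Real.sqrt_le_left (by positivity)]
      exact h3
    exact_mod_cast h4
  obtain ⟨c, hc⟩ := burn_of_path hG (p := p) (k := ⌈Real.sqrt (Fintype.card V)⌉₊) h1 (by
    intro w
    obtain ⟨x, hx, hx'⟩ := hp w
    refine le_trans (dS_le ?_ w) hx'
    rw [h2]
    exact hx) hcard (by
    rw [hlen] at h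
    tauto)
  exact burningNumber_le_of_centers hG c hc

end Pool.Agent.Results.MP_6b7cbf_co.NearPath
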