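import Pool.Agent.Helper55.BR.Final

set_option autoImplicit false

namespace Pool.Agent.Results.MP_6b7cbf_co.PolylogError

open N441b2449

/-- Every connected graph `G` on `n` vertices has burning number at most
`√n + 6 (log n)^2 + 90 log n + 280`. -/
theorem result {V : Type*} [Fintype V] (G : SimpleGraph V) (hG : G.Connected) :
    (burningNumber G : ℝ) ≤ Real.sqrt (Fintype.card V) +
      6 * Real.log (Fintype.card V) ^ 2 + 90 * Real.log (Fintype.card V) + 280 :=
  Pool.Agent.Helper55.BR.main' G hG

end Pool.Agent.Results.MP_6b7cbf_co.PolylogError
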